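import Pool.Agent.H242.LD.Stm

set_option autoImplicit false

/-!
# LD-DIM: dimension and the torus (helper117, for helper242)
-/

namespace Pool.Agent.H117.LD

open Real Set Metric Filter Topology
open Pool.Agent.TH705.SM (T2 S Si)
open Pool.Agent.H242.LD Pool.Agent.H242.TM

theorem dist_coe {x y : ℝ} (h : |x - y| ≤ 1 / 2) :
    dist (x : UnitAddCircle) (y : UnitAddCircle) = |x - y| := by
  rw [dist_eq_norm, ← AddCircle.coe_sub]
  refine (AddCircle.norm_coe_eq_abs_iff 1 one_ne_zero).2 ?_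
  rw [abs_one]
  exact h

theorem dist_coe_le (x y : ℝ) : dist (x : UnitAddCircle) (y : UnitAddCircle) ≤ |x - y| := by
  rw [dist_eq_norm, ← AddCircle.coe_sub, UnitAddCircle.norm_eq]
  have h := round_le (x - y) 0
  simpa using h

theorem pr_lip : LipschitzWith 1 pr := by
  refine LipschitzWith.mk_one fun z w => ?_
  rw [Prod.dist_eq, Prod.dist_eq]
  refine max_le_max ?_ ?_
  · exact dist_coe_le _ _
  · exact dist_coe_le _ _

/-- the squares -/
def Q (p : ℤ × ℤ) : Set (ℝ × ℝ) :=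
  {z | (p.1 : ℝ) / 2 ≤ z.1 ∧ z.1 ≤ ((p.1 : ℝ) + 1) / 2 ∧ (p.2 : ℝ) / 2 ≤ z.2 ∧
    z.2 ≤ ((p.2 : ℝ) + 1) / 2}

theorem iso (p : ℤ × ℤ) : Isometry (fun z : Q p => pr (z : ℝ × ℝ)) := by
  refine Isometry.of_dist_eq fun z w => ?_
  obtain ⟨h1, h2, h3, h4⟩ := z.2
  obtain ⟨g1, g2, g3, g4⟩ := w.2
  rw [Subtype.dist_eq, Prod.dist_eq, Prod.dist_eq]
  congr 1
  · exact dist_coe (abs_le.2 ⟨by linarith, by linarith⟩)
  · exact dist_coe (abs_le.2 ⟨by linarith, by linarith⟩)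

theorem cover (z : ℝ × ℝ) : ∃ p : ℤ × ℤ, z ∈ Q p := by
  refine ⟨(⌊2 * z.1⌋, ⌊2 * z.2⌋), ?_, ?_, ?_, ?_⟩
  · have := Int.floor_le (2 * z.1)
    simp only
    linarith
  · have := Int.lt_floor_add_one (2 * z.1)
    simp only
    linarith
  · have := Int.floor_le (2 * z.2)
    simp only
    linarith
  · have := Int.lt_floor_add_one (2 * z.2)
    simp only
    linarith

theorem part1 (B : Set T2) : dimH (pr ⁻¹' B) ≤ dimH B := by
  have h1 : pr ⁻¹' B = ⋃ p : ℤ × ℤ, (Subtype.val '' ((fun z : Q p => pr (z : ℝ × ℝ)) ⁻¹' B)) := by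
    ext z
    simp only [mem_iUnion]
    constructor
    · intro hz
      obtain ⟨p, hp⟩ := cover z
      exact ⟨p, ⟨z, hp⟩, hz, rfl⟩
    · rintro ⟨p, w, hw, rfl⟩
      exact hw
  rw [h1, dimH_iUnion]
  refine iSup_le fun p => ?_
  rw [isometry_subtype_coe.dimH_image, ← (iso p).dimH_image]
  exact dimH_mono (image_preimage_subset _ _)

theorem F_contDiff (a : ℝ) : ContDiff ℝ 1 (F a) := by
  unfold F phi
  fun_prop

theorem F_iter (a : ℝ) (n : ℕ) : ContDiff ℝ 1 ((F a)^[n]) := by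
  induction n with
  | zero => exact contDiff_id
  | succ n ih =>
    rw [Function.iterate_succ]
    exact ih.comp (F_contDiff a)

theorem pr_F_iter (a : ℝ) (n : ℕ) (p : ℝ × ℝ) : pr ((F a)^[n] p) = (S a)^[n] (pr p) := by
  induction n generalizing p with
  | zero => rfl
  | succ n ih => rw [Function.iterate_succ_apply, Function.iterate_succ_apply, ih, pr_F]

theorem pr_surj : Function.Surjective pr := by
  rintro ⟨u, v⟩
  obtain ⟨x, rfl⟩ := QuotientAddGroup.mk_surjective u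
  obtain ⟨y, rfl⟩ := QuotientAddGroup.mk_surjective v
  exact ⟨(x, y), rfl⟩

theorem ld_DIM : S_DIM := by
  refine ⟨part1, fun a n B => ?_⟩
  have h1 : (S a)^[n] '' B ⊆ pr '' ((F a)^[n] '' (pr ⁻¹' B)) := by
    rintro _ ⟨w, hw, rfl⟩
    obtain ⟨p, rfl⟩ := pr_surj w
    exact ⟨(F a)^[n] p, ⟨p, hw, rfl⟩, pr_F_iter a n p⟩
  refine (dimH_mono h1).trans ((pr_lip.dimH_image_le _).trans (le_trans ?_ (part1 B)))
  exact (F_iter a n).contDiffOn.dimH_image_le convex_univ (subset_univ _)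

end Pool.Agent.H117.LD
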